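import Pool.Agent.Lib.MP_6d445e_gt.H70.AmfComb

/-!
# AMF: abstract fusion for Miller forcing
-/

universe u v w

open Cardinal Filter

namespace Pool.Agent.Lib.MP_6d445e_gt.H70

open Pool.Agent.Lib.MP_100a6c_lc
open Pool.Agent.Lib.MP_e6fef2_lc

section

variable {A : Type u} [CompleteBooleanAlgebra A]

theorem mil_long {T : Set (List ℕ)} (hT : IsMil T) : ∀ N : ℕ, ∃ t ∈ T, N ≤ t.length
  | 0 => ⟨[], hT.nil, Nat.zero_le _⟩
  | N + 1 => by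
    obtain ⟨t, ht, hN⟩ := mil_long hT N
    obtain ⟨t', hp, hk⟩ := hT.spl t ht
    obtain ⟨k, -, hk⟩ := hk 0
    refine ⟨t' ++ [k], hk, ?_⟩
    have := hp.length_le
    simp only [List.length_append, List.length_singleton]
    omega

theorem mil_mem {T : Set (List ℕ)} (hT : IsMil T) {t0 : List ℕ} (h : ∀ t ∈ T, Cmp t t0) :
    t0 ∈ T := by
  obtain ⟨t, ht, hN⟩ := mil_long hT t0.length
  rcases h t ht with hc | hc
  · have := hc.eq_of_length (le_antisymm hc.length_le hN)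
    exact this ▸ ht
  · exact hT.pre _ _ hc ht

theorem of_mem_stm {g : Ult A} {σ : MX A} {t : List ℕ} (h : stm σ t ∈ g) :
    σ.1 t ∈ g ∧ ∀ t', σ.1 t' ∈ g → Cmp t' t := by
  obtain ⟨h1, h2⟩ := g.mem_inf.1 h
  refine ⟨h1, fun t' ht' => ?_⟩
  by_contra hc
  have h3 : (σ.1 t')ᶜ ∈ g := g.mono ((iInf_le _ t').trans (iInf_le _ hc)) h2
  exact g.mem_compl.1 h3 ht'

theorem mem_stm_of (σ : MX A) : ∀ᶠ g in ae A, ∀ t, σ.1 t ∈ g → (∀ t', σ.1 t' ∈ g → Cmp t' t) →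
    stm σ t ∈ g := by
  have h1 : ∀ᶠ g in ae A, ∀ t : List ℕ,
      (⨅ t', ⨅ _ : ¬ Cmp t' t, (σ.1 t')ᶜ) ∈ g ↔ ∀ t', (⨅ _ : ¬ Cmp t' t, (σ.1 t')ᶜ) ∈ g :=
    ae_all fun t => ae_iInf _
  have h2 : ∀ᶠ g in ae A, ∀ t t' : List ℕ,
      (⨅ _ : ¬ Cmp t' t, (σ.1 t')ᶜ) ∈ g ↔ ∀ _ : ¬ Cmp t' t, (σ.1 t')ᶜ ∈ g :=
    ae_all fun t => ae_all fun t' => ae_iInf _
  filter_upwards [h1, h2] with g h1 h2 t ht hc
  refine g.mem_inf.2 ⟨ht, (h1 t).2 fun t' => (h2 t t').2 fun hn => g.mem_compl.2 fun h => ?_⟩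
  exact hn (hc t' h)

theorem of_mem_le {g : Ult A} {σ σ' : MX A} (h : (MQ A).le σ σ' ∈ g) {t : List ℕ}
    (ht : σ.1 t ∈ g) : σ'.1 t ∈ g :=
  g.mem_himp.1 (g.mono (iInf_le _ t) h) ht

theorem mem_le_of (σ σ' : MX A) : ∀ᶠ g in ae A, (∀ t, σ.1 t ∈ g → σ'.1 t ∈ g) →
    (MQ A).le σ σ' ∈ g := by
  have h1 : ∀ᶠ g in ae A, (⨅ t, σ.1 t ⇨ σ'.1 t) ∈ g ↔ ∀ t, (σ.1 t ⇨ σ'.1 t) ∈ g := ae_iInf _
  filter_upwards [h1] with g h1 h
  exact h1.2 fun t => g.mem_himp.2 (h t)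

variable (A) in
theorem meas_mem (a : A) : Measurable fun g : Ult A => a ∈ g :=
  measurableSet_setOfPred.1 (measurable_mem A a)

variable {X : ℕ → Type v} [∀ n, Countable (X n)] (nd : ∀ n, X n → List ℕ) (enc : ∀ n, X n → ℕ)
  (τ : ∀ n, X n → MX A) (gd : ∀ n, X n → A) (ed : ∀ n, X n → X (n + 1) → A) (s0 : X 0)

/-- Good next states. -/
def GG (g : Ult A) (n : ℕ) (s : X n) (s' : X (n + 1)) : Prop :=
  gd (n + 1) s' ∈ g ∧ ed n s s' ∈ g ∧ (MQ A).le (τ (n + 1) s') (τ n s) ∈ g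

omit [∀ n, Countable (X n)] in
theorem meas_gg (n : ℕ) (s : X n) (s' : X (n + 1)) :
    Measurable fun g : Ult A => GG τ gd ed g n s s' :=
  (meas_mem A _).and ((meas_mem A _).and (meas_mem A _))

theorem meas_nx (n : ℕ) (s : X n) (s' : X (n + 1)) :
    Measurable fun g : Ult A => Nx nd enc (GG τ gd ed g) n s s' :=
  Measurable.exists fun _ => measurable_const.and ((meas_gg τ gd ed n s s').and
    (Measurable.forall fun s'' => measurable_const.imp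
      ((meas_gg τ gd ed n s s'').imp measurable_const)))

theorem meas_act : ∀ (n : ℕ) (s : X n),
    Measurable fun g : Ult A => Act nd enc (GG τ gd ed g) s0 n s
  | 0, _ => measurable_const
  | n + 1, s' => Measurable.exists fun s => (meas_act n s).and (meas_nx nd enc τ gd ed n s s')

theorem meas_tt (t : List ℕ) :
    Measurable fun g : Ult A => t ∈ TT nd enc (GG τ gd ed g) s0 :=
  Measurable.exists fun n => Measurable.exists fun s =>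
    (meas_act nd enc τ gd ed s0 n s).and measurable_const

theorem good_ev (h : ∀ n s m, gd n s ≤ ⨆ s' : X (n + 1),
      ⨆ _ : ∃ l, m ≤ l ∧ nd n s ++ [l] <+: nd (n + 1) s',
        gd (n + 1) s' ⊓ ed n s s' ⊓ (MQ A).le (τ (n + 1) s') (τ n s)) :
    ∀ᶠ g in ae A, ∀ n s m, gd n s ∈ g → ∃ s', ∃ l, m ≤ l ∧ nd n s ++ [l] <+: nd (n + 1) s' ∧
      GG τ gd ed g n s s' := by
  refine ae_all fun n => ae_all fun s => ae_all fun m => ?_
  have h1 := ae_iSup (A := A) fun s' : X (n + 1) =>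
    ⨆ _ : ∃ l, m ≤ l ∧ nd n s ++ [l] <+: nd (n + 1) s',
        gd (n + 1) s' ⊓ ed n s s' ⊓ (MQ A).le (τ (n + 1) s') (τ n s)
  have h2 := ae_all (A := A) fun s' : X (n + 1) => ae_iSup (A := A)
    fun _ : ∃ l, m ≤ l ∧ nd n s ++ [l] <+: nd (n + 1) s' =>
        gd (n + 1) s' ⊓ ed n s s' ⊓ (MQ A).le (τ (n + 1) s') (τ n s)
  filter_upwards [h1, h2] with g h1 h2 hg
  obtain ⟨s', hs'⟩ := h1.1 (g.mono (h n s m) hg)
  obtain ⟨⟨l, hl, hp⟩, hs'⟩ := (h2 s').1 hs'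
  rw [g.mem_inf, g.mem_inf] at hs'
  exact ⟨s', l, hl, hp, hs'.1.1, hs'.1.2, hs'.2⟩

end

theorem amf (h1 : NdStatement.{u}) (h2 : MxfStatement.{u}) : AmfStatement.{u, v} := by
  intro A _ X _ nd τ gd ed H1 H2 s0 a ha
  classical
  obtain ⟨hne, ndnil, ndpre, ndinc, ndsup, -, prjnd, stmnd⟩ := h1 A
  obtain ⟨mres, -, mtop, -, -, mfo, mfole⟩ := h2 A
  have := hne
  have hE : IsCE (mE A) := (all_tw1 A (MX A) (MQ A)).1
  have hprj : ∀ c : MC A, c ≤ mE A (prj (mE A) c) :=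
    (all_alg A (MC A) (mE A) hE).2.2.2.2.2.2.2.2.2.1
  have hlin : ∀ (c : MC A) (a : A), prj (mE A) (c ⊓ mE A a) = prj (mE A) c ⊓ a :=
    (all_alg A (MC A) (mE A) hE).2.2.2.2.2.2.2.2.2.2.2.2.2.2.2.2.1
  have hmono : ∀ a b : A, a ≤ b → mE A a ≤ mE A b :=
    fun a b => ((all_alg A (MC A) (mE A) hE).2.2.2.2.1 a b).2
  -- enumerations
  have hen : ∀ n, ∃ e : X n → ℕ, Function.Injective e := fun n => exists_injective_nat (X n)
  choose enc henc using hen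
  -- the evaluation
  have hmil : ∀ᶠ g in ae A, ∀ n (s : X n), IsMil {t | (τ n s).1 t ∈ g} :=
    ae_all fun n => ae_all fun s => (τ n s).2
  have hgood := good_ev nd τ gd ed H2
  obtain ⟨act, hact⟩ := exists_name (A := A) (J := Σ n, X n)
    (F := fun j g => Act nd enc (GG τ gd ed g) s0 j.1 j.2)
    (fun j => measurableSet_setOfPred.2 (meas_act nd enc τ gd ed s0 j.1 j.2))
  obtain ⟨ts, hts⟩ := exists_name (A := A) (J := List ℕ)
    (F := fun t g => (a ∈ g ∧ t ∈ TT nd enc (GG τ gd ed g) s0) ∨ (a ∉ g ∧ (τ 0 s0).1 t ∈ g))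
    (fun t => measurableSet_setOfPred.2 (((meas_mem A a).and (meas_tt nd enc τ gd ed s0 t)).or
      ((meas_mem A a).not.and (meas_mem A _))))
  have hG : ∀ g : Ult A, ∀ n (s : X n) (s' : X (n + 1)), GG τ gd ed g n s s' →
      {t | (τ (n + 1) s').1 t ∈ g} ⊆ {t | (τ n s).1 t ∈ g} :=
    fun g n s s' h t ht => of_mem_le h.2.2 ht
  have hgd : ∀ g : Ult A, a ∈ g → ∀ n (s : X n), Act nd enc (GG τ gd ed g) s0 n s →
      gd n s ∈ g := by
    intro g hg n s hs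
    cases n with
    | zero =>
      have hs' : s = s0 := hs
      subst hs'
      exact g.mono ha hg
    | succ n =>
      obtain ⟨r, -, l, -, hx, -⟩ := hs
      exact hx.1
  have hmem : ∀ g : Ult A, a ∈ g → ∀ n (s : X n), Act nd enc (GG τ gd ed g) s0 n s →
      nd n s ∈ {t | (τ n s).1 t ∈ g} :=
    fun g hg n s hs => (of_mem_stm (g.mono (H1 n s) (hgd g hg n s hs))).1
  let τs : MX A := ⟨ts, by
    filter_upwards [hmil, hgood, hts] with g g1 g2 g3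
    by_cases hg : a ∈ g
    · have e : {t | ts t ∈ g} = TT nd enc (GG τ gd ed g) s0 := by
        ext t
        simp only [Set.mem_ofPred_eq, g3 t, hg, true_and, not_true_eq_false, false_and, or_false]
      rw [e]
      exact tt_mil (g1) (hmem g hg) fun n s hs m => g2 n s m (hgd g hg n s hs)
    · have e : {t | ts t ∈ g} = {t | (τ 0 s0).1 t ∈ g} := by
        ext t
        simp only [Set.mem_ofPred_eq, g3 t, hg, false_and, not_false_eq_true, true_and, false_or]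
      rw [e]
      exact g1 0 s0⟩
  choose ρ hρ1 hρ2 hρ3 using mres τs
  refine ⟨mE A a ⊓ mG τs, fun n s => mE A (act ⟨n, s⟩) ⊓ ND (nd n s), ?_, ?_⟩
  · have e1 : mE A a ⊓ mG τs = mG τs ⊓ mE A a := inf_comm _ _
    rw [e1, hlin, mtop, top_inf_eq]
  -- almost every ultrafilter of the extension
  have k1 : ∀ᶠ h in ae (MC A), ∀ t, (ND t : MC A) ∈ h → ∃ k, (ND (t ++ [k]) : MC A) ∈ h := by
    refine ae_all fun t => ?_
    filter_upwards [ae_iSup fun k => (ND (t ++ [k]) : MC A)] with h hh ht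
    rw [ndsup t] at ht
    exact hh.1 ht
  have q1 : ∀ᶠ g in ae A, ∀ t, ∀ t1, (ρ t).1 t1 ∈ g → (∀ t', (ρ t).1 t' ∈ g → Cmp t' t1) →
      stm (ρ t) t1 ∈ g := ae_all fun t => mem_stm_of (ρ t)
  have q2 : ∀ᶠ g in ae A, ∀ t n (s : X n), (∀ t', (ρ t).1 t' ∈ g → (τ n s).1 t' ∈ g) →
      (MQ A).le (ρ t) (τ n s) ∈ g :=
    ae_all fun t => ae_all fun n => ae_all fun s => mem_le_of (ρ t) (τ n s)
  have q3 : ∀ᶠ g in ae A, ∀ t, IsMil {t' | (ρ t).1 t' ∈ g} := ae_all fun t => (ρ t).2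
  filter_upwards [k1, ae_pull hE hmil, ae_pull hE hact, ae_pull hE hts, ae_pull hE q1,
    ae_pull hE q2, ae_pull hE q3, ae_pull hE (mem_stm_of τs), ae_pull hE τs.2]
    with h k1 g1 g3 g4 g5 g6 g7 g8 g9 hp
  obtain ⟨hag, hτs⟩ := h.mem_inf.1 hp
  set g : Ult A := h.pull hE with hgdef
  have hg : a ∈ g := hag
  have e : ∀ t, τs.1 t ∈ g ↔ t ∈ TT nd enc (GG τ gd ed g) s0 := by
    intro t
    show ts t ∈ g ↔ _
    rw [g4 t]
    simp only [hg, true_and, not_true_eq_false, false_and, or_false]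
  have hTm := g1
  have hmem' := hmem g hg
  have hG' := hG g
  -- nodes of the real are nodes of the tree
  have ndtree : ∀ t, (ND t : MC A) ∈ h → τs.1 t ∈ g := by
    intro t ht
    have e1 : mE A (prj (mE A) (mG τs ⊓ ND t)) ∈ h :=
      h.mono (hprj _) (h.mem_inf.2 ⟨hτs, ht⟩)
    rw [prjnd] at e1
    exact e1
  -- restrictions
  have resG : ∀ t, (ND t : MC A) ∈ h → mG (ρ t) ∈ h := by
    intro t ht
    have e1 : mG τs ⊓ ND t ∈ h := h.mem_inf.2 ⟨hτs, ht⟩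
    rw [← hρ1 t] at e1
    exact (h.mem_inf.1 e1).2
  have resS : ∀ t, (ND t : MC A) ∈ h → ∀ t', (ρ t).1 t' ∈ g →
      Cmp t' t ∧ t' ∈ TT nd enc (GG τ gd ed g) s0 := by
    intro t ht t' ht'
    have e1 : stm (ρ t) t ∈ g := g.mono (hρ2 t) (ndtree t ht)
    have e2 : (MQ A).le (ρ t) τs ∈ g := g.mono (hρ3 t) (ndtree t ht)
    exact ⟨(of_mem_stm e1).2 t' ht', (e t').1 (of_mem_le e2 ht')⟩
  -- the root
  have root : (ND (nd 0 s0) : MC A) ∈ h := by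
    have e1 : ∀ t, τs.1 t ∈ g → Cmp t (nd 0 s0) := by
      intro t ht
      obtain ⟨n, s, hs, hpre⟩ := (e t).1 ht
      obtain ⟨r, hr, hrp, -⟩ := act_anc (T := fun n s => {t | (τ n s).1 t ∈ g}) hG'
        (Nat.zero_le n) s hs
      have hr' : r = s0 := hr
      subst hr'
      exact cmp_of_common hpre hrp
    have e2 : τs.1 (nd 0 s0) ∈ g := mil_mem g9 e1
    exact h.mono (stmnd τs (nd 0 s0)) (h.mem_inf.2 ⟨g8 _ e2 e1, hτs⟩)
  -- the step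
  have step : ∀ n (s : {s : X n // Act nd enc (GG τ gd ed g) s0 n s ∧ (ND (nd n s) : MC A) ∈ h}),
      ∃ s' : {s : X (n + 1) // Act nd enc (GG τ gd ed g) s0 (n + 1) s ∧
        (ND (nd (n + 1) s) : MC A) ∈ h}, Nx nd enc (GG τ gd ed g) n s.1 s'.1 := by
    rintro n ⟨s, hs, hnd⟩
    obtain ⟨k, hk⟩ := k1 _ hnd
    obtain ⟨n', s1, hs1, hpre⟩ := (e _).1 (ndtree _ hk)
    obtain ⟨s', hs', hx, hp1, hp2⟩ := act_above (T := fun n s => {t | (τ n s).1 t ∈ g}) hG' henc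
      hs hs1 hpre
    refine ⟨⟨s', hs', ?_⟩, hx⟩
    have e1 : ∀ t', (ρ (nd n s ++ [k])).1 t' ∈ g → Cmp t' (nd (n + 1) s') := by
      intro t' ht'
      obtain ⟨hc, ht⟩ := resS _ hk t' ht'
      exact tt_cmp (T := fun n s => {t | (τ n s).1 t ∈ g}) hG' henc hs hs' hp1 ht hc
    have e2 : (ρ (nd n s ++ [k])).1 (nd (n + 1) s') ∈ g := mil_mem (g7 _) e1
    exact h.mono (stmnd _ _) (h.mem_inf.2 ⟨g5 _ _ e2 e1, resG _ hk⟩)
  choose f hf using step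
  let ζ : ∀ n, {s : X n // Act nd enc (GG τ gd ed g) s0 n s ∧ (ND (nd n s) : MC A) ∈ h} :=
    fun n => Nat.rec ⟨s0, rfl, root⟩ (fun n s => f n s) n
  have hζ : ∀ n, Nx nd enc (GG τ gd ed g) n (ζ n).1 (ζ (n + 1)).1 := fun n => hf n (ζ n)
  refine ⟨fun n => (ζ n).1, rfl, fun n => ⟨fun s => ?_, ?_, ?_, ?_, (ζ n).2.2, ?_⟩⟩
  · constructor
    · intro hs
      obtain ⟨hs1, hs2⟩ := h.mem_inf.1 hs
      have hs3 : Act nd enc (GG τ gd ed g) s0 n s := (g3 ⟨n, s⟩).1 hs1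
      refine act_inj henc n _ _ hs3 (ζ n).2.1 ?_
      by_contra hc
      have h3 := h.mem_inf.2 ⟨hs2, (ζ n).2.2⟩
      exact h.not_bot (h.mono (ndinc (nd n s) (nd n (ζ n).1) hc).le h3)
    · rintro rfl
      exact h.mem_inf.2 ⟨(g3 ⟨n, (ζ n).1⟩).2 (ζ n).2.1, (ζ n).2.2⟩
  · exact hgd g hg n _ (ζ n).2.1
  · have e1 : (MQ A).le (ρ (nd n (ζ n).1)) (τ n (ζ n).1) ∈ g := by
      refine g6 _ _ _ fun t' ht' => ?_
      obtain ⟨hc, ht⟩ := resS _ (ζ n).2.2 t' ht'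
      exact tt_sub (T := fun n s => {t | (τ n s).1 t ∈ g}) hG' henc hTm hmem' (ζ n).2.1 ht hc
    have e2 : mE A ((MQ A).le (ρ (nd n (ζ n).1)) (τ n (ζ n).1)) ⊓ mG (ρ (nd n (ζ n).1)) ≤
        mG (τ n (ζ n).1) := by
      rw [← mfo, mfole]
    exact h.mono e2 (h.mem_inf.2 ⟨e1, resG _ (ζ n).2.2⟩)
  · obtain ⟨l, -, hx, -⟩ := hζ n
    exact hx.2.1
  · obtain ⟨l, hl, -⟩ := hζ n
    exact ⟨l, hl⟩

end Pool.Agent.Lib.MP_6d445e_gt.H70
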