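import Pool.Agent.Lib.MP_6d445e_gt.Iface

/-!
# AMF, the combinatorial part: active states and the tree of their nodes
-/

universe u v w

open Cardinal Filter

namespace Pool.Agent.Lib.MP_6d445e_gt.H70

open Pool.Agent.Lib.MP_100a6c_lc
open Pool.Agent.Lib.MP_e6fef2_lc

section comb

theorem cmp_symm {t t' : List ℕ} (h : Cmp t t') : Cmp t' t := Or.symm h

/-- Prefixes of comparable lists are comparable. -/
theorem cmp_of_prefix {t t' s s' : List ℕ} (h : t <+: s) (h' : t' <+: s') (hc : Cmp s s') :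
    Cmp t t' := by
  rcases hc with hc | hc
  · exact (List.prefix_or_prefix_of_prefix (h.trans hc) h')
  · exact (List.prefix_or_prefix_of_prefix h (h'.trans hc))

theorem cmp_of_common {t t' s : List ℕ} (h : t <+: s) (h' : t' <+: s) : Cmp t t' :=
  List.prefix_or_prefix_of_prefix h h'

/-- The successor is determined. -/
theorem succ_eq {t s : List ℕ} {l l' : ℕ} (h : t ++ [l] <+: s) (h' : t ++ [l'] <+: s) :
    l = l' := by
  have hc : t ++ [l] <+: t ++ [l'] := List.prefix_of_prefix_length_le h h' (by simp)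
  have hc' := hc.eq_of_length (by simp)
  simpa using hc'

theorem not_prefix_self {t : List ℕ} {l : ℕ} : ¬ t ++ [l] <+: t := by
  intro h
  have := h.length_le
  simp at this

variable {X : ℕ → Type v} (nd : ∀ n, X n → List ℕ) (enc : ∀ n, X n → ℕ)
  (G : ∀ n, X n → X (n + 1) → Prop) (s0 : X 0)

/-- The first good next state with a given successor of the node. -/
def Nx (n : ℕ) (s : X n) (s' : X (n + 1)) : Prop :=
  ∃ l, nd n s ++ [l] <+: nd (n + 1) s' ∧ G n s s' ∧
    ∀ s'', nd n s ++ [l] <+: nd (n + 1) s'' → G n s s'' → enc (n + 1) s' ≤ enc (n + 1) s''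

/-- The active states. -/
def Act : ∀ n, X n → Prop
  | 0 => fun s => s = s0
  | n + 1 => fun s' => ∃ s, Act n s ∧ Nx nd enc G n s s'

variable {nd enc G s0}

theorem Nx.pre {n : ℕ} {s : X n} {s' : X (n + 1)} (h : Nx nd enc G n s s') :
    nd n s <+: nd (n + 1) s' := by
  obtain ⟨l, h, -⟩ := h
  exact (List.prefix_append _ _).trans h

/-- Comparable active states of the same level are equal. -/
theorem act_inj (henc : ∀ n, Function.Injective (enc n)) : ∀ n (s1 s2 : X n),
    Act nd enc G s0 n s1 → Act nd enc G s0 n s2 → Cmp (nd n s1) (nd n s2) → s1 = s2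
  | 0, s1, s2, h1, h2, _ => by
    simp only [Act] at h1 h2
    rw [h1, h2]
  | n + 1, s1, s2, h1, h2, hc => by
    obtain ⟨r1, hr1, hn1⟩ := h1
    obtain ⟨r2, hr2, hn2⟩ := h2
    have hr : r1 = r2 := act_inj henc n r1 r2 hr1 hr2 (cmp_of_prefix hn1.pre hn2.pre hc)
    subst hr
    obtain ⟨l1, hp1, hg1, hm1⟩ := hn1
    obtain ⟨l2, hp2, hg2, hm2⟩ := hn2
    have hl : l1 = l2 := by
      rcases hc with hc | hc
      · exact succ_eq (hp1.trans hc) hp2
      · exact succ_eq hp1 (hp2.trans hc)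
    subst hl
    exact henc _ (le_antisymm (hm1 _ hp2 hg2) (hm2 _ hp1 hg1))

/-- The ancestor of an active state. -/
theorem act_anc {T : ∀ n, X n → Set (List ℕ)} (hT : ∀ n s s', G n s s' → T (n + 1) s' ⊆ T n s)
    {n n' : ℕ} (hn : n ≤ n') : ∀ s1 : X n', Act nd enc G s0 n' s1 → ∃ s : X n,
      Act nd enc G s0 n s ∧ nd n s <+: nd n' s1 ∧ T n' s1 ⊆ T n s := by
  induction n', hn using Nat.le_induction with
  | base => exact fun s1 h1 => ⟨s1, h1, List.prefix_rfl, subset_rfl⟩
  | succ n' hn ih =>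
    rintro s1 ⟨r, hr, hx⟩
    obtain ⟨s, hs, hp, hsub⟩ := ih r hr
    refine ⟨s, hs, hp.trans hx.pre, ?_⟩
    obtain ⟨l, -, hg, -⟩ := hx
    exact (hT _ _ _ hg).trans hsub

/-- Active states above a successor of the node of an active state. -/
theorem act_above {T : ∀ n, X n → Set (List ℕ)} (hT : ∀ n s s', G n s s' → T (n + 1) s' ⊆ T n s)
    (henc : ∀ n, Function.Injective (enc n)) {n n' : ℕ} {s : X n} {s1 : X n'} {l : ℕ}
    (hs : Act nd enc G s0 n s) (hs1 : Act nd enc G s0 n' s1) (hp : nd n s ++ [l] <+: nd n' s1) :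
    ∃ s' : X (n + 1), Act nd enc G s0 (n + 1) s' ∧ Nx nd enc G n s s' ∧
      nd n s ++ [l] <+: nd (n + 1) s' ∧ nd (n + 1) s' <+: nd n' s1 := by
  rcases le_or_gt n' n with h | h
  · exfalso
    obtain ⟨r, hr, hrp, -⟩ := act_anc hT h s hs
    have h1 : r = s1 := by
      refine act_inj henc _ _ _ hr hs1 ?_
      exact Or.inl (hrp.trans ((List.prefix_append _ _).trans hp))
    subst h1
    exact not_prefix_self (hp.trans hrp)
  · obtain ⟨s', hs', hp', -⟩ := act_anc hT h s1 hs1
    obtain ⟨r, hr, hx⟩ := id hs'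
    have h1 : r = s := by
      refine act_inj henc _ _ _ hr hs ?_
      exact cmp_of_common (hx.pre.trans hp') ((List.prefix_append _ _).trans hp)
    subst h1
    refine ⟨s', hs', hx, ?_, hp'⟩
    obtain ⟨l', hl', -⟩ := hx
    have h2 : l' = l := succ_eq (hl'.trans hp') hp
    subst h2
    exact hl'

variable (nd enc G s0) in
/-- The tree of the nodes of active states. -/
def TT : Set (List ℕ) := {t | ∃ n, ∃ s : X n, Act nd enc G s0 n s ∧ t <+: nd n s}

/-- Active states form a superperfect tree. -/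
theorem tt_mil {T : ∀ n, X n → Set (List ℕ)} (hTm : ∀ n s, IsMil (T n s))
    (hmem : ∀ n s, Act nd enc G s0 n s → nd n s ∈ T n s)
    (hinf : ∀ n s, Act nd enc G s0 n s → ∀ m, ∃ s', ∃ l, m ≤ l ∧
      nd n s ++ [l] <+: nd (n + 1) s' ∧ G n s s') : IsMil (TT nd enc G s0) where
  nil := ⟨0, s0, rfl, List.nil_prefix⟩
  pre t t' h := by
    rintro ⟨n, s, hs, h'⟩
    exact ⟨n, s, hs, h.trans h'⟩
  inc t := by
    rintro ⟨n, s, hs, h⟩
    exact (hTm n s).inc t ((hTm n s).pre _ _ h (hmem n s hs))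
  spl t := by
    rintro ⟨n, s, hs, h⟩
    refine ⟨nd n s, h, fun m => ?_⟩
    obtain ⟨s', l, hl, hp, hg⟩ := hinf n s hs m
    -- the first good state
    classical
    have hex : ∃ k, ∃ s'' : X (n + 1), nd n s ++ [l] <+: nd (n + 1) s'' ∧ G n s s'' ∧
        enc (n + 1) s'' = k := ⟨_, s', hp, hg, rfl⟩
    obtain ⟨s'', h1, h2, h3⟩ := Nat.find_spec hex
    refine ⟨l, hl, n + 1, s'', ⟨s, hs, l, h1, h2, fun s3 h4 h5 => ?_⟩, h1⟩
    rw [h3]
    exact Nat.find_min' hex ⟨s3, h4, h5, rfl⟩

/-- Nodes of the tree are below or above the node of an active state or incomparable with it. -/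
theorem tt_sub {T : ∀ n, X n → Set (List ℕ)} (hT : ∀ n s s', G n s s' → T (n + 1) s' ⊆ T n s)
    (henc : ∀ n, Function.Injective (enc n)) (hTm : ∀ n s, IsMil (T n s))
    (hmem : ∀ n s, Act nd enc G s0 n s → nd n s ∈ T n s) {n : ℕ} {s : X n}
    (hs : Act nd enc G s0 n s) {t : List ℕ} (ht : t ∈ TT nd enc G s0) (hc : Cmp t (nd n s)) :
    t ∈ T n s := by
  rcases hc with hc | hc
  · exact (hTm n s).pre _ _ hc (hmem n s hs)
  · obtain ⟨n', s1, hs1, hp⟩ := ht
    rcases le_total n n' with h | h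
    · obtain ⟨r, hr, hrp, hsub⟩ := act_anc hT h s1 hs1
      have h1 : r = s := act_inj henc _ _ _ hr hs (cmp_of_common hrp (hc.trans hp))
      subst h1
      exact hsub ((hTm n' s1).pre _ _ hp (hmem n' s1 hs1))
    · obtain ⟨r, hr, hrp, -⟩ := act_anc hT h s hs
      have h1 : r = s1 := act_inj henc _ _ _ hr hs1 (Or.inl (hrp.trans (hc.trans hp)))
      subst h1
      exact (hTm n s).pre _ _ (hp.trans hrp) (hmem n s hs)

/-- Nodes of the tree which are comparable with a successor of the node of an active state are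
comparable with the node of the next active state. -/
theorem tt_cmp {T : ∀ n, X n → Set (List ℕ)} (hT : ∀ n s s', G n s s' → T (n + 1) s' ⊆ T n s)
    (henc : ∀ n, Function.Injective (enc n)) {n : ℕ} {s : X n} {s' : X (n + 1)} {l : ℕ}
    (hs : Act nd enc G s0 n s) (hs' : Act nd enc G s0 (n + 1) s')
    (hl : nd n s ++ [l] <+: nd (n + 1) s') {t : List ℕ} (ht : t ∈ TT nd enc G s0)
    (hc : Cmp t (nd n s ++ [l])) : Cmp t (nd (n + 1) s') := by
  rcases hc with hc | hc
  · exact Or.inl (hc.trans hl)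
  · obtain ⟨n', s1, hs1, hp⟩ := ht
    obtain ⟨r, hr, -, hr1, hr2⟩ := act_above hT henc hs hs1 (hc.trans hp)
    have h1 : r = s' := by
      refine act_inj henc _ _ _ hr hs' ?_
      obtain ⟨q, hq, hx⟩ := hr
      obtain ⟨q', hq', hx'⟩ := hs'
      have e1 : q = s := act_inj henc _ _ _ hq hs
        (cmp_of_common hx.pre ((List.prefix_append _ _).trans hr1))
      have e2 : q' = s := act_inj henc _ _ _ hq' hs
        (cmp_of_common hx'.pre ((List.prefix_append _ _).trans hl))
      subst e1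
      subst e2
      obtain ⟨l1, hp1, hg1, hm1⟩ := hx
      obtain ⟨l2, hp2, hg2, hm2⟩ := hx'
      have f1 : l1 = l := succ_eq hp1 hr1
      have f2 : l2 = l := succ_eq hp2 hl
      subst f1
      subst f2
      have := henc _ (le_antisymm (hm1 _ hp2 hg2) (hm2 _ hp1 hg1))
      rw [this]
      exact Or.inl List.prefix_rfl
    subst h1
    exact cmp_of_common hp hr2

end comb

end Pool.Agent.Lib.MP_6d445e_gt.H70
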