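import Pool.Agent.Lib.MP_6d445e_gt.Iface2

/-!
# KEY: stage 1 and preservation together
-/

universe u v w

open Cardinal Filter

namespace Pool.Agent.Lib.MP_6d445e_gt.H70

open Pool.Agent.Lib.MP_100a6c_lc
open Pool.Agent.Lib.MP_e6fef2_lc

section

variable {A : Type u} [CompleteBooleanAlgebra A]

/-- The restriction of `Y` to the sections with index at least `m`. -/
noncomputable def rst (m : ℕ) (Y : ℕ → A) : ℕ → A := fun n => ⨆ _ : m ≤ n.unpair.1, Y n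

theorem rst_le (m : ℕ) (Y : ℕ → A) (n : ℕ) : rst m Y n ≤ Y n := iSup_le fun _ => le_rfl

theorem rst_eq {m : ℕ} {Y : ℕ → A} {n : ℕ} (h : m ≤ n.unpair.1) : rst m Y n = Y n :=
  le_antisymm (rst_le m Y n) (le_iSup (fun _ : m ≤ n.unpair.1 => Y n) h)

theorem rst_bot {m : ℕ} {Y : ℕ → A} {n : ℕ} (h : ¬ m ≤ n.unpair.1) : rst m Y n = ⊥ := by
  unfold rst
  simp [h]

theorem disn_anti {x Y Y' : ℕ → A} (h : ∀ n, Y' n ≤ Y n) (n : ℕ) : disn n x Y ≤ disn n x Y' := by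
  refine le_iInf fun p => le_iInf fun hp => le_iInf fun i => ?_
  refine (iInf_le _ p).trans ((iInf_le _ hp).trans ((iInf_le _ i).trans ?_))
  exact compl_le_compl (inf_le_inf_left _ (h _))

theorem gc_anti (N : Set El.{u}) {Y Y' : ℕ → A} (h : ∀ n, Y' n ≤ Y n) : gc N Y ≤ gc N Y' := by
  refine inf_le_inf (inf_le_inf_left _ ?_) ?_
  · refine iInf_mono fun m => iSup_mono fun k => iSup_mono fun _ => iInf_mono fun p =>
      iInf_mono fun _ => iInf_mono fun i => iInf_mono fun _ => ?_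
    exact compl_le_compl (h _)
  · refine iInf_mono fun x => iInf_mono fun _ => iInf_mono fun _ => iSup_mono fun n => ?_
    exact disn_anti h n

theorem dis_rst (m : ℕ) (x Y : ℕ → A) : disn m x Y ≤ dis x (rst m Y) := by
  refine le_iInf fun p => le_iInf fun _ => le_iInf fun i => ?_
  by_cases hp : m ≤ p
  · refine (iInf_le _ p).trans ((iInf_le _ hp).trans ((iInf_le _ i).trans ?_))
    exact compl_le_compl (inf_le_inf_left _ (rst_le m Y _))
  · rw [rst_bot (by rw [Nat.unpair_pair]; exact hp), inf_bot_eq, compl_bot]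
    exact le_top

end

section

variable {D B : Type u} [CompleteBooleanAlgebra D] [CompleteBooleanAlgebra B]

/-- An interpretation which is a slalom. -/
theorem key_int (h2 : LbStatement.{u}) (h3 : ItpStatement.{u}) (h4 : SlaStatement.{u})
    {φ : D → B} (hφ : IsCE φ) (c : B) {x : ℕ → B} (hx : Sl x) :
    ∃ z : ℕ → D, Sl z ∧ prj φ c ≤ itp φ (prj φ) c x z := by
  obtain ⟨-, -, hadd, -, hitp⟩ := h3 D B φ hφ
  obtain ⟨-, -, -, -, -, -, -, hcong, hslal⟩ := hitp (prj φ) hadd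
  obtain ⟨-, hsl2, -⟩ := h4 B
  obtain ⟨-, hsl2', -⟩ := h4 D
  obtain ⟨z, hz, -⟩ := h2 D B φ hφ (prj φ) hadd c x fun _ => ⊥
  set c' := prj φ c with hc'
  let z' : ℕ → D := fun n => z n ⊓ c'
  have hz1 : c' ≤ itp φ (prj φ) c x z' := by
    have e1 := hcong c x z z' c' (fun n => by
      show c' ⊓ z n = c' ⊓ (z n ⊓ c')
      rw [inf_comm (z n) c', ← inf_assoc, inf_idem])
    have e2 : c' ≤ c' ⊓ itp φ (prj φ) c x z := le_inf le_rfl hz
    rw [e1] at e2
    exact e2.trans inf_le_right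
  refine ⟨z', ?_, hz1⟩
  obtain ⟨r, hr⟩ := hx
  refine ⟨r, ?_⟩
  have e1 : SlOn r c x := hsl2 r r ⊤ c x (fun _ => le_rfl) le_top hr
  have e2 : SlOn r c' z' :=
    hsl2' r r _ c' z' (fun _ => le_rfl) hz1 (hslal c x z' r e1)
  filter_upwards [e2] with g hg _ p
  by_cases hcg : c' ∈ g
  · exact hg hcg p
  · have e3 : {i | z' (Nat.pair p i) ∈ g} = ∅ := by
      refine Set.eq_empty_of_forall_notMem fun i hi => hcg ?_
      exact (g.mem_inf.1 hi).2
    rw [e3]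
    simp

/-- The condition `d`. -/
theorem key_cond {φ : D → B} (hφ : IsCE φ) {c : B} {x : ℕ → B} {z : ℕ → D} {N : Set El.{u}}
    (n1 : ∀ Y : ℕ → D, gc N Y ⊓ itp φ (prj φ) c x z ⊓ dis z Y ≤
      prj φ (gc N (fun n => φ (Y n)) ⊓ c ⊓ dis x fun n => φ (Y n)))
    (hz : prj φ c ≤ itp φ (prj φ) c x z) (hz2 : Sl z) (hzN : In N z) {p : D} (hp0 : p ≠ ⊥)
    (hpc : p ≤ prj φ c) {Y : ℕ → D} (hpY : p ≤ gc N Y) :
    ∃ (m : ℕ) (d : B), d ≠ ⊥ ∧ d ≤ c ∧ d ≤ φ p ∧ d ≤ dis x fun n => φ (rst m Y n) := by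
  have e1 : p ≤ ⨆ n, disn n z Y := by
    refine hpY.trans (inf_le_right.trans ?_)
    exact (iInf_le _ z).trans ((iInf_le _ hzN).trans (iInf_le _ hz2))
  have e2 : ∃ m, p ⊓ disn m z Y ≠ ⊥ := by
    by_contra hcon
    push Not at hcon
    apply hp0
    have e3 : p ⊓ ⨆ n, disn n z Y = ⊥ := by
      rw [inf_iSup_eq]
      exact iSup_eq_bot.2 hcon
    rwa [inf_eq_left.2 e1] at e3
  obtain ⟨m, hm⟩ := e2
  set p' := p ⊓ disn m z Y with hp'
  have e3 : p' ≤ prj φ (c ⊓ dis x fun n => φ (rst m Y n)) := by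
    have e4 := n1 (rst m Y)
    refine le_trans (le_inf (le_inf ?_ ?_) ?_) (e4.trans ?_)
    · exact inf_le_left.trans (hpY.trans (gc_anti N (rst_le m Y)))
    · exact inf_le_left.trans (hpc.trans hz)
    · exact inf_le_right.trans (dis_rst m z Y)
    · refine (all_alg D B φ hφ).2.2.2.2.2.2.2.2.2.2.2.2.1 _ _ ?_
      exact inf_le_inf_right _ inf_le_right
  have hlin := (all_alg D B φ hφ).2.2.2.2.2.2.2.2.2.2.2.2.2.2.2.2.1
  have hbot := (all_alg D B φ hφ).2.2.2.2.2.2.2.2.2.2.2.2.2.2.2.2.2.1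
  have hle := (all_alg D B φ hφ).2.2.2.2.1
  refine ⟨m, c ⊓ (dis x fun n => φ (rst m Y n)) ⊓ φ p', ?_, ?_, ?_, ?_⟩
  · intro h0
    have e5 := (hbot _).2 h0
    rw [hlin, inf_eq_right.2 e3] at e5
    exact hm e5
  · exact inf_le_left.trans inf_le_left
  · exact inf_le_right.trans ((hle _ _).2 inf_le_left)
  · exact inf_le_left.trans inf_le_right

end

theorem key (h1 : St1Statement.{u}) (h2 : LbStatement.{u}) (h3 : ItpStatement.{u})
    (h4 : SlaStatement.{u}) (h5 : NxtStatement.{u}) (h6 : NdStatement.{u}) :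
    KeyStatement.{u} := by
  intro A B _ _ φ hφ hP c J x hJ hJ' hx
  classical
  have := (h6 A).1
  have hE : IsCE (mE A) := (all_tw1 A (MX A) (MQ A)).1
  have hprj2 : ∀ c, prj (fun a => φ (mE A a)) c = prj (mE A) (prj φ c) :=
    (all_alg2 A (MC A) B (mE A) φ hE hφ).2.1
  obtain ⟨z, hz2, hz1⟩ := key_int h2 h3 h4 hφ c hx
  -- club many `N`
  obtain ⟨-, -, -, hcst, -⟩ := all_club.{u}
  filter_upwards [hP, h1 A, hcst _ c, hcst _ (prj φ c), hcst _ J, hcst _ x, hcst _ z]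
    with N n1 n2 n3 n4 n5 n6 n7 a ha hac lam rho om th hlam hrho hom hth hub
  rw [hprj2] at hac
  obtain ⟨p, hp0, hpc, hpa, Y, hpY, hev⟩ :=
    n2 (prj φ c) n4 J n5 hJ hJ' lam rho om th hlam hrho hom hth a ha hac hub
  obtain ⟨m, d, hd0, hdc, hdp, hdd⟩ :=
    key_cond hφ (fun Y => n1 Y c x z n3 n6 hx n7) hz1 hz2 n7 hp0 hpc hpY
  have hle := (all_alg (MC A) B φ hφ).2.2.2.2.1
  refine ⟨d, hd0, hdc, hdp.trans ((hle _ _).2 hpa), ?_⟩
  -- evaluation
  have q1 : ∀ᶠ h' in ae (MC A), ∀ n, ∃! k, (nxt n k : MC A) ∈ h' := h5 A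
  filter_upwards [ae_pull hφ hev, ae_pull hφ q1] with h g1 g2 hd g hg
  have hp2 : p ∈ h.pull hφ := h.mono hdp hd
  obtain ⟨t, q, k, htqk⟩ := g1 hp2 g hg
  refine ⟨q, k, m, fun n => ?_⟩
  obtain ⟨a1, a2, a3, a4, a5, a6⟩ := htqk n
  refine ⟨a2, a3, a5, fun n' hn1 hn2 => ?_, fun i hi1 hi2 hi3 hxi => ?_⟩
  · have e5 : (nxt n' (k n) : MC A) ∈ h.pull hφ := by
      refine (h.pull hφ).mono ?_ a4
      exact le_iSup_of_le (t n) (le_iSup_of_le ⟨fun i hi => (a1 i hi).trans hn1, hn2⟩ le_rfl)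
    obtain ⟨k', hk', huniq⟩ := g2 n'
    have e6 : {k | (fun n k => φ (nxt n k)) n' k ∈ h} = {k n} := by
      ext j
      constructor
      · intro hj
        have hj' : (nxt n' j : MC A) ∈ h.pull hφ := hj
        rw [Set.mem_singleton_iff, huniq j hj', huniq (k n) e5]
      · rintro rfl
        exact e5
    show sInf {k | (fun n k => φ (nxt n k)) n' k ∈ h} = k n
    rw [e6]
    exact csInf_singleton _
  · have e5 : Y (Nat.pair (Nat.pair (fv J g (k n)) (fv om g (q (n + 1)))) i) ∈ h.pull hφ :=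
      a6 i hi1 hi2
    have e6 : (x (Nat.pair (Nat.pair (fv J g (k n)) (fv om g (q (n + 1)))) i) ⊓
        φ (rst m Y (Nat.pair (Nat.pair (fv J g (k n)) (fv om g (q (n + 1)))) i)))ᶜ ∈ h := by
      refine h.mono ?_ (h.mono hdd hd)
      exact (iInf_le _ (Nat.pair (fv J g (k n)) (fv om g (q (n + 1))))).trans
        ((iInf_le _ (Nat.zero_le _)).trans (iInf_le _ i))
    rw [rst_eq (by
      rw [Nat.unpair_pair]
      exact hi3.trans (Nat.left_le_pair _ _))] at e6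
    exact h.mem_compl.1 e6 (h.mem_inf.2 ⟨hxi, e5⟩)

end Pool.Agent.Lib.MP_6d445e_gt.H70
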